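import Pool.Agent.N343.AS.Stm

/-!
# AS/MIX (helper570): mixed radix expansion
-/

set_option autoImplicit false

namespace Pool.Agent.N570.AS.MIX

open Finset Pool.Agent.N343.AS

lemma hE (N : ℕ) : E (N + 1) - E N = Q N + N + L N := by
  unfold L
  show 2 * E N + Q N + 3 * N + 12 - E N = _
  omega

lemma Qsucc (i : ℕ) : Q (i + 1) = Q i + (i + 5) := rfl

lemma Qmono : Monotone Q := by
  apply monotone_nat_of_le_succ
  intro n
  rw [Qsucc]
  omega

lemma Umul {N l : ℕ} (h : l + 1 ≤ N) : U N l = U N (l + 1) * 2 ^ (l + 1 + 4) := by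
  unfold U
  have h1 := Qmono h
  rw [Qsucc] at h1
  rw [Qsucc, ← pow_add]
  congr 1
  omega

lemma ind {N W : ℕ} (hW : W < 2 ^ (E (N + 1) - E N)) : ∀ n ≤ N,
    W = ∑ l ∈ range (n + 1), (W / U N l) % 2 ^ (l + 4) * U N l + W % U N n := by
  intro n
  induction n with
  | zero =>
    intro _
    rw [zero_add, sum_range_one]
    have h1 : W < U N 0 * 2 ^ (0 + 4) := by
      have h2 : U N 0 * 2 ^ (0 + 4) = 2 ^ (E (N + 1) - E N) := by
        rw [hE]
        unfold U
        have h3 := Qmono (Nat.zero_le N)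
        have h4 : Q 0 = 4 := rfl
        rw [h4] at h3 ⊢
        rw [← pow_add]
        congr 1
        omega
      rw [h2]
      exact hW
    rw [Nat.mod_eq_of_lt (Nat.div_lt_of_lt_mul h1)]
    exact (Nat.div_add_mod' W (U N 0)).symm
  | succ n ih =>
    intro hn
    have h1 := ih (by omega)
    rw [sum_range_succ]
    have h2 : W % U N n = W / U N (n + 1) % 2 ^ (n + 1 + 4) * U N (n + 1) + W % U N (n + 1) := by
      rw [Umul hn, Nat.mod_mul, add_comm, mul_comm]
    omega

/-- **MIX** -/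
theorem main : S_MIX := by
  intro N W hd hW
  refine ⟨fun l _ => ?_, ?_⟩
  · have := Nat.mod_lt (W / U N l) (show 0 < 2 ^ (l + 4) by positivity)
    omega
  · have h1 := ind hW N le_rfl
    have hU : U N N = 2 ^ N * 2 ^ (L N) := by
      unfold U
      rw [Nat.sub_self, zero_add, pow_add]
    have h2 : 2 ^ N ∣ W % U N N := (Nat.dvd_mod_iff (by rw [hU]; exact dvd_mul_right _ _)).2 hd
    obtain ⟨lam, hlam⟩ := h2
    refine ⟨lam, ?_, ?_⟩
    · have h3 := Nat.mod_lt W (show 0 < U N N by rw [hU]; positivity)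
      rw [hlam, hU] at h3
      exact Nat.lt_of_mul_lt_mul_left h3
    · rw [hlam, mul_comm (2 ^ N) lam] at h1
      exact h1

end Pool.Agent.N570.AS.MIX
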